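import Pool.Agent.Lib.K708.Final

/-! # MP_708a61_ag: the negative answer

There is a smooth projective irreducible surface `X` such that no surface birational to `X` admits
an snc degeneration (over a disc, a smooth pointed curve, or any connected Riemann surface) all of
whose central components are rational.

Example: `E = ℂ/ℤ[i]`, `P` its Weierstrass function, `X` the surface of all
`(x, y, w₀, ..., w₃) ∈ E⁶` with `(P(w_j) - s)(P(f_j) - s) = 1`, `f = (x, y, x + y + c₂,
x + i y + c₃)`, for general `s, c₂, c₃`.

Proof.  (1) The topological data carried by `X` (four classes `e_j = df_j` in the directions
`(1,0), (0,1), (1,1), (1,i)`, each with a class `γ_j = dw_j` independent of `e_j` and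
`e_j ∧ γ_j = 0`, and the values of two integrals) goes up and down along birational morphisms and is
transported to every smooth fibre of a degeneration (local triviality of proper submersions).
(2) On each fibre the Hodge decomposition of closed 1-forms shows that `e_j` has a (1,0)-part whose
product with the (1,0)-part of its conjugate vanishes, in four directions; so the fibre carries a
holomorphic map to `E` homotopic to `x`, of fixed positive energy.  (3) These maps converge on the
smooth part of the central fibre; the limits extend to the rational components, so they are
constant; at the double curves and triple points periods are small elements of `ℤ[i]`, so the maps
to `E` on the fibres near the central one have small image and are constant: contradiction. -/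

set_option autoImplicit false

namespace Pool.Agent.Results.MP_708a61_ag.NoRationalDegeneration

open Pool.Agent.K708

/-- There is a surface `X` such that no surface `X'` birational to `X` admits an snc degeneration to
a union of rational surfaces. -/
theorem result : ∃ X : CMfd 2, IsSurface X ∧
    ∀ X' : CMfd 2, Birational X X' → IsEmpty (RatDegen X') :=
  negativeAnswer

end Pool.Agent.Results.MP_708a61_ag.NoRationalDegeneration
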